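import Pool.Graph.R_pool_sql_team_seeded_843ab51a.V11211.BPBDefs
import Pool.Graph.R_pool_sql_team_seeded_843ab51a.V11211.BPBAbs
import Pool.Graph.R_pool_sql_team_seeded_843ab51a.V11211.BPBSpace
import Pool.Graph.R_pool_sql_team_seeded_843ab51a.V11211.BPBDomain
import Pool.Graph.R_pool_sql_team_seeded_843ab51a.V11211.BPBRange
import Pool.Graph.R_pool_sql_team_ae5b0c61.H90.RangeDefs
import Pool.Graph.R_pool_sql_team_ae5b0c61.H90.RangeProof
import Pool.Agent.Helper15.BPB.Functional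

/-!
# MP_7aa09c_an: for which pairs are the BPB properties inherited by one-complemented range subspaces?
-/

set_option autoImplicit false

namespace Pool.Agent.Results.MP_7aa09c_an.InheritanceCharacterised

open Pool.Agent.V11211.BPBDefs Pool.Agent.V11211.BPBSpace Pool.Agent.V11211.BPBDomain
  Pool.Agent.V11211.BPBRange

section lemmas

variable {𝕜 : Type*} [RCLike 𝕜] {X : Type*} [NormedAddCommGroup X] [NormedSpace 𝕜 X]
variable {Y : Type*} [NormedAddCommGroup Y] [NormedSpace 𝕜 Y]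
variable {Z : Type*} [NormedAddCommGroup Z] [NormedSpace 𝕜 Z]

/-- The Bishop-Phelps-Bollobás theorem, in the form used for `Ysp`. -/
theorem scalarBPB_all [CompleteSpace X] : ScalarBPB 𝕜 X := by
  intro ε hε
  have hm : 0 < min ε 1 := lt_min hε one_pos
  refine ⟨(min ε 1) ^ 2 / 8, by positivity, ?_, ?_⟩
  · have := min_le_right ε 1
    nlinarith
  · intro f hf x₀ hx₀ h
    obtain ⟨x, g, h1, h2, h3, h4, h5⟩ :=
      Pool.Agent.Helper15.BPB.bpb_functional 𝕜 hm (min_le_right _ _) f hf x₀ hx₀ h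
    exact ⟨x, g, h1, h2, h3, h4.trans_le (min_le_left _ _), h5.trans_le (min_le_left _ _)⟩

/-- The pointwise property for functionals, in the form used for `Ysp`. -/
theorem scalarPt_of_pointwise (h : PointwiseBPB 𝕜 X 𝕜) : ScalarPt 𝕜 X := by
  intro ε hε
  obtain ⟨η, hη, h⟩ := h (ε / 2) (by positivity)
  refine ⟨min (min η (ε / 2)) (1 / 2), by positivity, (min_le_right _ _).trans (by norm_num), ?_⟩
  intro f hf x₀ hx₀ hfx
  have m1 : min (min η (ε / 2)) (1 / 2) ≤ η := (min_le_left _ _).trans (min_le_left _ _)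
  have m2 : min (min η (ε / 2)) (1 / 2) ≤ ε / 2 := (min_le_left _ _).trans (min_le_right _ _)
  have m3 : min (min η (ε / 2)) (1 / 2) ≤ 1 / 2 := min_le_right _ _
  have hle : ‖f x₀‖ ≤ ‖f‖ := by
    have := f.le_opNorm x₀
    rwa [hx₀, mul_one] at this
  have hpos : 0 < ‖f‖ := by linarith
  have hne : (‖f‖ : 𝕜) ≠ 0 := by
    rw [Ne, RCLike.ofReal_eq_zero]
    exact hpos.ne'
  set f' : X →L[𝕜] 𝕜 := (‖f‖ : 𝕜)⁻¹ • f with hf'
  have hnf' : ‖f'‖ = 1 := by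
    rw [hf', norm_smul, norm_inv, RCLike.norm_ofReal, abs_of_pos hpos, inv_mul_cancel₀ hpos.ne']
  have hfx' : ‖f x₀‖ ≤ ‖f' x₀‖ := by
    have : ‖f' x₀‖ = ‖f‖⁻¹ * ‖f x₀‖ := by
      change ‖(‖f‖ : 𝕜)⁻¹ * f x₀‖ = _
      rw [norm_mul, norm_inv, RCLike.norm_ofReal, abs_of_pos hpos]
    rw [this]
    have h1 : 1 ≤ ‖f‖⁻¹ := (one_le_inv₀ hpos).2 hf
    nlinarith [norm_nonneg (f x₀)]
  obtain ⟨S, hS, hSx, hSf⟩ := h f' hnf' x₀ hx₀ (by linarith)
  refine ⟨S, hS.le, hSx, ?_⟩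
  have h1 : ‖f' - f‖ ≤ ε / 2 := by
    have e2 : f' - f = ((1 - ‖f‖ : ℝ) : 𝕜) • f' := by
      ext v
      change (‖f‖ : 𝕜)⁻¹ * f v - f v = ((1 - ‖f‖ : ℝ) : 𝕜) * ((‖f‖ : 𝕜)⁻¹ * f v)
      push_cast
      field_simp
    rw [e2, norm_smul, hnf', mul_one, RCLike.norm_ofReal, abs_of_nonneg (by linarith)]
    linarith
  have h2 := norm_add_le (S - f') (f' - f)
  rw [sub_add_sub_cancel] at h2
  linarith

/-- If `(X, Y)` has the pointwise BPB property for some `Y ≠ 0`, so has `(X, 𝕜)`. -/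
theorem pointwise_scalar_of_range [Nontrivial Y] (h : PointwiseBPB 𝕜 X Y) :
    PointwiseBPB 𝕜 X 𝕜 := by
  intro ε hε
  have hε' : 0 < min (ε / 2) (1 / 2) := by positivity
  obtain ⟨η, hη, h⟩ := h _ hε'
  refine ⟨η, hη, fun f hf x₀ hx₀ hfx => ?_⟩
  obtain ⟨y0, hy0⟩ := exists_ne (0 : Y)
  obtain ⟨y, hy⟩ : ∃ y : Y, ‖y‖ = 1 := by
    refine ⟨((‖y0‖ : 𝕜)⁻¹) • y0, ?_⟩
    rw [norm_smul, norm_inv, RCLike.norm_ofReal, abs_of_pos (norm_pos_iff.2 hy0),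
      inv_mul_cancel₀ (norm_pos_iff.2 hy0).ne']
  let T : X →L[𝕜] Y := f.smulRight y
  have hT : ‖T‖ = 1 := by
    rw [ContinuousLinearMap.norm_smulRight_apply, hf, hy, mul_one]
  have hTx : 1 - η < ‖T x₀‖ := by
    change 1 - η < ‖f x₀ • y‖
    rw [norm_smul, hy, mul_one]
    exact hfx
  obtain ⟨S, hS, hSx, hST⟩ := h T hT x₀ hx₀ hTx
  obtain ⟨φ, hφ, hφS⟩ := exists_dual_vector'' 𝕜 (S x₀)
  rw [hSx] at hφS
  let g : X →L[𝕜] 𝕜 := φ.comp S
  have hgx : g x₀ = 1 := by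
    change φ (S x₀) = 1
    rw [hφS]
    simp
  have hg : ‖g‖ ≤ 1 := by
    refine (ContinuousLinearMap.opNorm_comp_le _ _).trans ?_
    rw [hS, mul_one]
    exact hφ
  have hg1 : ‖g‖ = 1 := by
    apply le_antisymm hg
    have := g.le_opNorm x₀
    rwa [hgx, hx₀, mul_one, norm_one] at this
  set c : 𝕜 := φ y with hc
  have hc1 : ‖c‖ ≤ 1 := by
    have := φ.le_opNorm y
    rw [hy, mul_one] at this
    exact this.trans hφ
  have hgc : ‖g - c • f‖ < min (ε / 2) (1 / 2) := by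
    have e : g - c • f = φ.comp (S - T) := by
      ext v
      change φ (S v) - φ y * f v = φ (S v - f v • y)
      rw [map_sub, map_smul, smul_eq_mul]
      ring
    rw [e]
    refine ((ContinuousLinearMap.opNorm_comp_le _ _).trans ?_).trans_lt hST
    calc ‖φ‖ * ‖S - T‖ ≤ 1 * ‖S - T‖ := mul_le_mul_of_nonneg_right hφ (norm_nonneg _)
      _ = _ := one_mul _
  have hclow : 1 - min (ε / 2) (1 / 2) < ‖c‖ := by
    have h1 := norm_add_le (g - c • f) (c • f)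
    rw [sub_add_cancel, hg1, norm_smul, hf, mul_one] at h1
    linarith
  have hcpos : 0 < ‖c‖ := by
    have := min_le_right (ε / 2) (1 / 2 : ℝ)
    linarith
  have hcne : (‖c‖ : 𝕜) ≠ 0 := by
    rw [Ne, RCLike.ofReal_eq_zero]
    exact hcpos.ne'
  let u : 𝕜 := starRingEnd 𝕜 c / (‖c‖ : 𝕜)
  have hu : ‖u‖ = 1 := by
    rw [norm_div, RCLike.norm_conj, RCLike.norm_ofReal, abs_of_pos hcpos, div_self hcpos.ne']
  have huc : u * c = (‖c‖ : 𝕜) := by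
    have h1 : starRingEnd 𝕜 c * c = (‖c‖ : 𝕜) ^ 2 := RCLike.conj_mul _
    calc u * c = (starRingEnd 𝕜 c * c) / (‖c‖ : 𝕜) := by simp only [u]; ring
      _ = _ := by rw [h1, sq, mul_div_assoc, div_self hcne, mul_one]
  refine ⟨u • g, ?_, ?_, ?_⟩
  · rw [norm_smul, hu, hg1, mul_one]
  · change ‖u * g x₀‖ = 1
    rw [hgx, mul_one, hu]
  · have e : u • g - f = u • (g - c • f) + ((‖c‖ - 1 : ℝ) : 𝕜) • f := by
      ext v
      change u * g v - f v = u * (g v - c * f v) + ((‖c‖ - 1 : ℝ) : 𝕜) * f v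
      have : u * (g v - c * f v) = u * g v - (u * c) * f v := by ring
      rw [this, huc]
      push_cast
      ring
    rw [e]
    refine (norm_add_le _ _).trans_lt ?_
    rw [norm_smul, hu, one_mul, norm_smul, hf, mul_one, RCLike.norm_ofReal,
      abs_of_nonpos (by linarith)]
    have := min_le_left (ε / 2) (1 / 2 : ℝ)
    linarith

theorem norm_iso_comp (e : Y ≃ₗᵢ[𝕜] Z) (T : X →L[𝕜] Y) :
    ‖(e.toContinuousLinearEquiv : Y →L[𝕜] Z).comp T‖ = ‖T‖ :=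
  e.toLinearIsometry.norm_toContinuousLinearMap_comp

theorem pointwise_iso (e : Y ≃ₗᵢ[𝕜] Z) (h : PointwiseBPB 𝕜 X Z) : PointwiseBPB 𝕜 X Y := by
  intro ε hε
  obtain ⟨η, hη, h⟩ := h ε hε
  refine ⟨η, hη, fun T hT x₀ hx₀ hTx => ?_⟩
  obtain ⟨S, hS, hSx, hST⟩ := h ((e.toContinuousLinearEquiv : Y →L[𝕜] Z).comp T)
    (by rw [norm_iso_comp, hT]) x₀ hx₀ (by
      change 1 - η < ‖e (T x₀)‖
      rwa [e.norm_map])
  refine ⟨(e.symm.toContinuousLinearEquiv : Z →L[𝕜] Y).comp S, by rw [norm_iso_comp, hS], ?_, ?_⟩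
  · change ‖e.symm (S x₀)‖ = 1
    rw [e.symm.norm_map, hSx]
  · have : (e.symm.toContinuousLinearEquiv : Z →L[𝕜] Y).comp S - T =
        (e.symm.toContinuousLinearEquiv : Z →L[𝕜] Y).comp
          (S - (e.toContinuousLinearEquiv : Y →L[𝕜] Z).comp T) := by
      ext v
      change e.symm (S v) - T v = e.symm (S v - e (T v))
      rw [map_sub, e.symm_apply_apply]
    rw [this, norm_iso_comp]
    exact hST

theorem bpb_iso (e : Y ≃ₗᵢ[𝕜] Z) (h : BPBp 𝕜 X Z) : BPBp 𝕜 X Y := by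
  intro ε hε
  obtain ⟨η, hη, h⟩ := h ε hε
  refine ⟨η, hη, fun T hT x₀ hx₀ hTx => ?_⟩
  obtain ⟨x, S, hx, hS, hSx, hxx, hST⟩ := h ((e.toContinuousLinearEquiv : Y →L[𝕜] Z).comp T)
    (by rw [norm_iso_comp, hT]) x₀ hx₀ (by
      change 1 - η < ‖e (T x₀)‖
      rwa [e.norm_map])
  refine ⟨x, (e.symm.toContinuousLinearEquiv : Z →L[𝕜] Y).comp S, hx, by rw [norm_iso_comp, hS],
    ?_, hxx, ?_⟩
  · change ‖e.symm (S x)‖ = 1
    rw [e.symm.norm_map, hSx]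
  · have : (e.symm.toContinuousLinearEquiv : Z →L[𝕜] Y).comp S - T =
        (e.symm.toContinuousLinearEquiv : Z →L[𝕜] Y).comp
          (S - (e.toContinuousLinearEquiv : Y →L[𝕜] Z).comp T) := by
      ext v
      change e.symm (S v) - T v = e.symm (S v - e (T v))
      rw [map_sub, e.symm_apply_apply]
    rw [this, norm_iso_comp]
    exact hST

theorem bpb_of_pointwise (h : PointwiseBPB 𝕜 X Y) : BPBp 𝕜 X Y := by
  intro ε hε
  obtain ⟨η, hη, h⟩ := h ε hε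
  refine ⟨η, hη, fun T hT x₀ hx₀ hTx => ?_⟩
  obtain ⟨S, hS, hSx, hST⟩ := h T hT x₀ hx₀ hTx
  exact ⟨x₀, S, hx₀, hS, hSx, by rwa [sub_self, norm_zero], hST⟩

end lemmas

/-- One pair `(X, Y)` with both properties, with a one-complemented subspace `Y₁` of `Y` for which
`(X, Y₁)` has neither. -/
theorem both (𝕜 : Type) [RCLike 𝕜] :
    ∃ (X Y : Type) (_ : NormedAddCommGroup X) (_ : NormedSpace 𝕜 X) (_ : CompleteSpace X)
      (_ : NormedAddCommGroup Y) (_ : NormedSpace 𝕜 Y) (_ : CompleteSpace Y)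
      (Y₁ : Submodule 𝕜 Y), OneComplemented 𝕜 Y₁ ∧ PointwiseBPB 𝕜 X Y ∧ BPBp 𝕜 X Y ∧
        ¬ PointwiseBPB 𝕜 X Y₁ ∧ ¬ BPBp 𝕜 X Y₁ := by
  by_contra hcon
  refine Pool.Agent.H90.RangeProof.final (𝕜 := 𝕜) ?_
  intro X Y _ _ _ _ _ _ Y₁ hY₁ hp
  by_contra hb
  apply hcon
  have hp' : PointwiseBPB 𝕜 X Y := by
    intro ε hε
    obtain ⟨η, hη, h⟩ := hp ε hε
    exact ⟨η, hη, fun T hT x₀ hx₀ hTx => h T x₀ hT hx₀ hTx⟩
  have hb' : ¬ BPBp 𝕜 X Y₁ := by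
    intro h
    apply hb
    intro ε hε
    obtain ⟨η, hη, h⟩ := h ε hε
    refine ⟨η, hη, fun T x₀ hT hx₀ hTx => ?_⟩
    obtain ⟨x, S, h1, h2, h3, h4, h5⟩ := h T hT x₀ hx₀ hTx
    exact ⟨S, x, h1, h2, h3, h4, h5⟩
  obtain ⟨hcl, P, hP1, hP2, hP3⟩ := hY₁
  refine ⟨X, Y, inferInstance, inferInstance, inferInstance, inferInstance, inferInstance,
    inferInstance, Y₁, ⟨hcl, P, hP1, hP3, fun y => ?_⟩, hp', bpb_of_pointwise hp',
    fun h => hb' (bpb_of_pointwise h), hb'⟩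
  rw [← SetLike.mem_coe, ← hP2]
  rfl

/-- **Every Banach space is one-complemented in a range space with all possible BPB properties.** -/
theorem universal (𝕜 : Type) [RCLike 𝕜] (E : Type) [NormedAddCommGroup E] [NormedSpace 𝕜 E]
    [CompleteSpace E] [Nontrivial E] :
    ∃ (Y : Type) (_ : NormedAddCommGroup Y) (_ : NormedSpace 𝕜 Y) (_ : CompleteSpace Y)
      (Y₁ : Submodule 𝕜 Y), OneComplemented 𝕜 Y₁ ∧ Nonempty (E ≃ₗᵢ[𝕜] Y₁) ∧
      ∀ (X : Type) [NormedAddCommGroup X] [NormedSpace 𝕜 X] [CompleteSpace X],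
        BPBp 𝕜 X Y ∧ (PointwiseBPB 𝕜 X Y ↔ PointwiseBPB 𝕜 X 𝕜) := by
  have hone : OneComplemented 𝕜 (Pool.Agent.V11211.BPBAbs.Y1 (inc : E →L[𝕜] Ysp 𝕜 E)) :=
    Pool.Agent.V11211.BPBAbs.oneComplemented inc snd norm_inc norm_snd_apply_le snd_inc
  have hnt : Nontrivial (Ysp 𝕜 E) := by
    obtain ⟨e, he⟩ := exists_ne (0 : E)
    refine ⟨⟨inc e, 0, fun h => ?_⟩⟩
    have h1 := norm_inc (𝕜 := 𝕜) e
    rw [h, norm_zero] at h1
    exact he (norm_eq_zero.1 h1.symm)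
  refine ⟨Ysp 𝕜 E, inferInstance, inferInstance, inferInstance, _, hone, ⟨?_⟩, ?_⟩
  · exact LinearIsometry.equivRange
      ({ toLinearMap := (inc : E →L[𝕜] Ysp 𝕜 E).toLinearMap, norm_map' := norm_inc } :
        E →ₗᵢ[𝕜] Ysp 𝕜 E)
  · intro X _ _ _
    exact ⟨bpb_of_scalar E scalarBPB_all, pointwise_scalar_of_range,
      fun h => pointwise_of_scalar E (scalarPt_of_pointwise h)⟩

theorem result (𝕜 : Type) [RCLike 𝕜] :
    -- the universal range space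
    (∀ (E : Type) [NormedAddCommGroup E] [NormedSpace 𝕜 E] [CompleteSpace E] [Nontrivial E],
      ∃ (Y : Type) (_ : NormedAddCommGroup Y) (_ : NormedSpace 𝕜 Y) (_ : CompleteSpace Y)
        (Y₁ : Submodule 𝕜 Y), OneComplemented 𝕜 Y₁ ∧ Nonempty (E ≃ₗᵢ[𝕜] Y₁) ∧
        ∀ (X : Type) [NormedAddCommGroup X] [NormedSpace 𝕜 X] [CompleteSpace X],
          BPBp 𝕜 X Y ∧ (PointwiseBPB 𝕜 X Y ↔ PointwiseBPB 𝕜 X 𝕜)) ∧
    -- Q1: when is the pointwise BPB property inherited?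
    (∀ (X E : Type) [NormedAddCommGroup X] [NormedSpace 𝕜 X] [CompleteSpace X]
      [NormedAddCommGroup E] [NormedSpace 𝕜 E] [CompleteSpace E] [Nontrivial E],
      (∀ (Y : Type) [NormedAddCommGroup Y] [NormedSpace 𝕜 Y] [CompleteSpace Y]
        (Y₁ : Submodule 𝕜 Y), OneComplemented 𝕜 Y₁ → Nonempty (E ≃ₗᵢ[𝕜] Y₁) →
        PointwiseBPB 𝕜 X Y → PointwiseBPB 𝕜 X Y₁) ↔
      (PointwiseBPB 𝕜 X 𝕜 → PointwiseBPB 𝕜 X E)) ∧
    -- Q2: when is the BPBp inherited?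
    (∀ (X E : Type) [NormedAddCommGroup X] [NormedSpace 𝕜 X] [CompleteSpace X]
      [NormedAddCommGroup E] [NormedSpace 𝕜 E] [CompleteSpace E] [Nontrivial E],
      (∀ (Y : Type) [NormedAddCommGroup Y] [NormedSpace 𝕜 Y] [CompleteSpace Y]
        (Y₁ : Submodule 𝕜 Y), OneComplemented 𝕜 Y₁ → Nonempty (E ≃ₗᵢ[𝕜] Y₁) →
        BPBp 𝕜 X Y → BPBp 𝕜 X Y₁) ↔
      BPBp 𝕜 X E) ∧
    -- the implications of Q1 and Q2 fail, even at one and the same pair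
    (∃ (X Y : Type) (_ : NormedAddCommGroup X) (_ : NormedSpace 𝕜 X) (_ : CompleteSpace X)
      (_ : NormedAddCommGroup Y) (_ : NormedSpace 𝕜 Y) (_ : CompleteSpace Y)
      (Y₁ : Submodule 𝕜 Y), OneComplemented 𝕜 Y₁ ∧ PointwiseBPB 𝕜 X Y ∧ BPBp 𝕜 X Y ∧
        ¬ PointwiseBPB 𝕜 X Y₁ ∧ ¬ BPBp 𝕜 X Y₁) ∧
    -- they fail with a finite-dimensional domain
    (∃ (X Y : Type) (_ : NormedAddCommGroup X) (_ : NormedSpace 𝕜 X) (_ : CompleteSpace X)
      (_ : NormedAddCommGroup Y) (_ : NormedSpace 𝕜 Y) (_ : CompleteSpace Y)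
      (Y₁ : Submodule 𝕜 Y), FiniteDimensional 𝕜 X ∧ OneComplemented 𝕜 Y₁ ∧
        PointwiseBPB 𝕜 X Y ∧ ¬ PointwiseBPB 𝕜 X Y₁) ∧
    (∃ (X Y : Type) (_ : NormedAddCommGroup X) (_ : NormedSpace 𝕜 X) (_ : CompleteSpace X)
      (_ : NormedAddCommGroup Y) (_ : NormedSpace 𝕜 Y) (_ : CompleteSpace Y)
      (Y₁ : Submodule 𝕜 Y), FiniteDimensional 𝕜 X ∧ OneComplemented 𝕜 Y₁ ∧
        BPBp 𝕜 X Y ∧ ¬ BPBp 𝕜 X Y₁) := by
  have hnE : Nontrivial (Esp 𝕜) := nontrivial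
  have hfin (p : ENNReal) : FiniteDimensional 𝕜 (WithLp p (𝕜 × 𝕜)) :=
    Module.Finite.equiv (WithLp.linearEquiv p 𝕜 (𝕜 × 𝕜)).symm
  refine ⟨fun E _ _ _ _ => universal 𝕜 E, ?_, ?_, both 𝕜, ?_, ?_⟩
  · intro X E _ _ _ _ _ _ _
    constructor
    · intro h hX
      obtain ⟨Y, i1, i2, i3, Y₁, h1, ⟨e⟩, h2⟩ := universal 𝕜 E
      exact pointwise_iso e (h Y Y₁ h1 ⟨e⟩ ((h2 X).2.2 hX))
    · rintro h Y _ _ _ Y₁ - ⟨e⟩ hXY
      have : Nontrivial Y := by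
        obtain ⟨v, hv⟩ := exists_ne (0 : E)
        refine ⟨⟨(e v : Y), 0, fun h0 => hv ?_⟩⟩
        have h1 : e v = 0 := Subtype.ext h0
        exact e.injective (h1.trans (map_zero e).symm)
      exact pointwise_iso e.symm (h (pointwise_scalar_of_range hXY))
  · intro X E _ _ _ _ _ _ _
    constructor
    · intro h
      obtain ⟨Y, i1, i2, i3, Y₁, h1, ⟨e⟩, h2⟩ := universal 𝕜 E
      exact bpb_iso e (h Y Y₁ h1 ⟨e⟩ (h2 X).1)
    · rintro h Y _ _ _ Y₁ - ⟨e⟩ -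
      exact bpb_iso e.symm h
  · refine ⟨X4 𝕜, Ysp 𝕜 (Esp 𝕜), inferInstance, inferInstance, inferInstance, inferInstance,
      inferInstance, inferInstance, Pool.Agent.V11211.BPBAbs.Y1 inc, hfin 4, ?_, ?_, ?_⟩
    · exact Pool.Agent.V11211.BPBAbs.oneComplemented inc snd norm_inc norm_snd_apply_le snd_inc
    · exact pointwise_of_scalar (Esp 𝕜) scalarPt
    · intro h
      exact fail4 (Pool.Agent.V11211.BPBAbs.pointwise_transfer inc snd norm_inc snd_inc h)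
  · refine ⟨X1 𝕜, Ysp 𝕜 (Esp 𝕜), inferInstance, inferInstance, inferInstance, inferInstance,
      inferInstance, inferInstance, Pool.Agent.V11211.BPBAbs.Y1 inc, hfin 1, ?_, ?_, ?_⟩
    · exact Pool.Agent.V11211.BPBAbs.oneComplemented inc snd norm_inc norm_snd_apply_le snd_inc
    · exact bpb_of_scalar (Esp 𝕜) scalarBPB
    · intro h
      exact fail1 (Pool.Agent.V11211.BPBAbs.bpb_transfer inc snd norm_inc snd_inc h)

end Pool.Agent.Results.MP_7aa09c_an.InheritanceCharacterised
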